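import Mathlib
import Pool.Agent.H33.G.R_seed8.H295R3.D1

set_option autoImplicit false

open Finset

namespace Pool.Agent.H295R3.D

open ArithmeticFunction in
/-- `sum_{d | n} mu(d) (L - log d)^2` -/
noncomputable def lam (L : ℝ) (n : ℕ) : ℝ :=
  ∑ d ∈ n.divisors, (moebius d : ℝ) * (L - Real.log d) ^ 2

section
open ArithmeticFunction

lemma deriv_mul (f g : ArithmeticFunction ℝ) :
    pmul (f * g) ArithmeticFunction.log = pmul f ArithmeticFunction.log * g + f * pmul g ArithmeticFunction.log := by
  ext n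
  simp only [pmul_apply, mul_apply, ArithmeticFunction.add_apply]
  rw [sum_mul, ← sum_add_distrib]
  refine sum_congr rfl fun x hx => ?_
  rw [Nat.mem_divisorsAntidiagonal] at hx
  obtain ⟨h1, h2⟩ := hx
  have ha : x.1 ≠ 0 := by rintro h; apply h2; rw [← h1, h, zero_mul]
  have hb : x.2 ≠ 0 := by rintro h; apply h2; rw [← h1, h, mul_zero]
  have : ArithmeticFunction.log n = ArithmeticFunction.log x.1 + ArithmeticFunction.log x.2 := by
    simp only [log_apply]
    rw [← h1]
    push_cast
    rw [Real.log_mul (by exact_mod_cast ha) (by exact_mod_cast hb)]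
  rw [this]
  ring

lemma sum_moebius_log_sq (n : ℕ) :
    ∑ d ∈ n.divisors, (moebius d : ℝ) * Real.log d ^ 2 =
      ∑ x ∈ n.divisorsAntidiagonal, vonMangoldt x.1 * vonMangoldt x.2
        - Real.log n * vonMangoldt n := by
  set m0 : ArithmeticFunction ℝ := ((moebius : ArithmeticFunction ℤ) : ArithmeticFunction ℝ) with hm0
  set m1 : ArithmeticFunction ℝ := pmul m0 ArithmeticFunction.log with hm1
  have h1 : m1 * (zeta : ArithmeticFunction ℝ) = - vonMangoldt := by
    ext n
    rw [coe_mul_zeta_apply]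
    have := @sum_moebius_mul_log_eq n
    simp only [ArithmeticFunction.neg_apply]
    rw [← this]
    refine sum_congr rfl fun d _ => ?_
    simp [hm1, hm0, pmul_apply]
  have h2 : pmul (zeta : ArithmeticFunction ℝ) ArithmeticFunction.log = ArithmeticFunction.log := by
    ext n
    rw [pmul_apply]
    by_cases hn : n = 0
    · subst hn; simp
    · simp [natCoe_apply, zeta_apply, hn]
  have h3 := deriv_mul m1 (zeta : ArithmeticFunction ℝ)
  rw [h2, h1] at h3
  have h4 : m1 * ArithmeticFunction.log = - (vonMangoldt * vonMangoldt) := by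
    rw [← zeta_mul_vonMangoldt, ← mul_assoc, h1]
    exact neg_mul _ _
  rw [h4] at h3
  have h5 := congrArg (fun f : ArithmeticFunction ℝ => f n) h3
  simp only [pmul_apply, ArithmeticFunction.add_apply, ArithmeticFunction.neg_apply,
    coe_mul_zeta_apply, log_apply] at h5
  rw [mul_apply] at h5
  have h6 : ∑ d ∈ n.divisors, (moebius d : ℝ) * Real.log d ^ 2 =
      ∑ x ∈ n.divisors, m1 x * Real.log x := by
    refine sum_congr rfl fun d _ => ?_
    simp only [hm1, hm0, pmul_apply, log_apply, intCoe_apply]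
    ring
  rw [h6]
  linarith

lemma lam_eq (L : ℝ) (n : ℕ) (hn : n ≠ 1) :
    lam L n = vonMangoldt n * (2 * L - Real.log n) +
      ∑ x ∈ n.divisorsAntidiagonal, vonMangoldt x.1 * vonMangoldt x.2 := by
  unfold lam
  have h0 : ∑ d ∈ n.divisors, (moebius d : ℝ) = 0 := by
    have := congrArg (fun f : ArithmeticFunction ℤ => f n) moebius_mul_coe_zeta
    simp only [coe_mul_zeta_apply] at this
    rw [one_apply_ne hn] at this
    exact_mod_cast this
  have h1 := @sum_moebius_mul_log_eq n
  simp only [log_apply] at h1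
  have h2 := sum_moebius_log_sq n
  have h3 : ∑ d ∈ n.divisors, (moebius d : ℝ) * (L - Real.log d) ^ 2 =
      L ^ 2 * ∑ d ∈ n.divisors, (moebius d : ℝ) -
      2 * L * ∑ d ∈ n.divisors, (moebius d : ℝ) * Real.log d +
      ∑ d ∈ n.divisors, (moebius d : ℝ) * Real.log d ^ 2 := by
    rw [mul_sum, mul_sum, ← sum_sub_distrib, ← sum_add_distrib]
    refine sum_congr rfl fun d _ => ?_
    ring
  rw [h3, h0, h1, h2]
  ring

lemma lam_one (L : ℝ) : lam L 1 = L ^ 2 := by
  simp [lam]

end

end Pool.Agent.H295R3.D
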