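import Mathlib
import Pool.Agent.H33.G.R_seed8.H295R3.D4

set_option autoImplicit false

open Finset

namespace Pool.Agent.H295R3.D

open ArithmeticFunction (vonMangoldt vonMangoldt_nonneg vonMangoldt_le_log)

lemma sum_vM_le (n : ℕ) : ∑ x ∈ n.divisorsAntidiagonal, vonMangoldt x.1 * vonMangoldt x.2 ≤
    Real.log n ^ 2 := by
  have h1 : ∀ x ∈ n.divisorsAntidiagonal, vonMangoldt x.1 * vonMangoldt x.2 ≤
      vonMangoldt x.1 * Real.log n := by
    intro x hx
    rw [Nat.mem_divisorsAntidiagonal] at hx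
    apply mul_le_mul_of_nonneg_left _ vonMangoldt_nonneg
    refine vonMangoldt_le_log.trans ?_
    have hx2 : 0 < x.2 := by
      rcases Nat.eq_zero_or_pos x.2 with h | h
      · exfalso; apply hx.2; rw [← hx.1, h, mul_zero]
      · exact h
    apply Real.log_le_log
    · exact_mod_cast hx2
    · exact_mod_cast Nat.le_of_dvd (Nat.pos_of_ne_zero hx.2) (Dvd.intro_left _ hx.1)
  refine (sum_le_sum h1).trans ?_
  have h2 : ∑ x ∈ n.divisorsAntidiagonal, vonMangoldt x.1 = ∑ i ∈ n.divisors, vonMangoldt i :=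
    Nat.sum_divisorsAntidiagonal (fun i _ => vonMangoldt i) (n := n)
  rw [← sum_mul, h2, ArithmeticFunction.vonMangoldt_sum]
  exact le_of_eq (by ring)

lemma lam_le (L : ℝ) (n : ℕ) (hn : 2 ≤ n) (hL : Real.log n ≤ L) : lam L n ≤ 3 * L ^ 2 := by
  rw [lam_eq L n (by omega)]
  have h1 := sum_vM_le n
  have h2 : 0 ≤ Real.log n := Real.log_natCast_nonneg n
  have h3 : vonMangoldt n ≤ Real.log n := vonMangoldt_le_log
  have h4 : (0:ℝ) ≤ vonMangoldt n := vonMangoldt_nonneg
  have h5 : vonMangoldt n * (2 * L - Real.log n) ≤ L * (2 * L) := by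
    apply mul_le_mul (h3.trans hL) (by linarith) (by linarith) (by linarith)
  have h6 : Real.log n ^ 2 ≤ L ^ 2 := pow_le_pow_left₀ h2 hL 2
  nlinarith

def IsBad (z n : ℕ) : Prop := ∃ m, z ≤ m ∧ m * m ∣ n

noncomputable instance (z : ℕ) : DecidablePred (IsBad z) := fun _ => Classical.propDecidable _

lemma vM_eq (z n m : ℕ) (hn : n ≠ 0) (hr : Rough z n) (hb : ¬ IsBad z n) (hm : m ∣ n) :
    vonMangoldt m = if m.Prime then Real.log m else 0 := by
  split_ifs with h
  · exact ArithmeticFunction.vonMangoldt_apply_prime h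
  · rw [ArithmeticFunction.vonMangoldt_eq_zero_iff]
    intro hpp
    rw [isPrimePow_nat_iff] at hpp
    obtain ⟨p, k, hp, hk, rfl⟩ := hpp
    have hk2 : 2 ≤ k := by
      by_contra hc
      have : k = 1 := by omega
      subst this
      rw [pow_one] at h
      exact h hp
    apply hb
    refine ⟨p, ?_, ?_⟩
    · by_contra hlt
      exact hr p hp (by omega) ((dvd_pow_self p (by omega)).trans hm)
    · rw [← pow_two]
      exact (pow_dvd_pow p hk2).trans hm

/-- the pair sum -/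
noncomputable def PS (X Y : ℕ) : ℝ :=
  ∑ x ∈ (range (X + Y + 1) ×ˢ range (X + Y + 1)).filter
        (fun x : ℕ × ℕ => x.1.Prime ∧ x.2.Prime ∧ X < x.1 * x.2 ∧ x.1 * x.2 ≤ X + Y),
        Real.log x.1 * Real.log x.2

lemma PS_eq (X Y : ℕ) : PS X Y = ∑ n ∈ Ioc X (X + Y),
    ∑ x ∈ n.divisorsAntidiagonal.filter (fun x => x.1.Prime ∧ x.2.Prime),
      Real.log x.1 * Real.log x.2 := by
  unfold PS
  rw [← Finset.sum_fiberwise_of_maps_to (s := (range (X + Y + 1) ×ˢ range (X + Y + 1)).filter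
        (fun x : ℕ × ℕ => x.1.Prime ∧ x.2.Prime ∧ X < x.1 * x.2 ∧ x.1 * x.2 ≤ X + Y))
        (t := Ioc X (X + Y)) (g := fun x => x.1 * x.2)]
  · refine sum_congr rfl fun n hn => ?_
    rw [mem_Ioc] at hn
    refine sum_congr ?_ fun _ _ => rfl
    ext x
    simp only [mem_filter, mem_product, mem_range, Nat.mem_divisorsAntidiagonal]
    constructor
    · rintro ⟨⟨_, h1, h2, h3, h4⟩, h5⟩
      exact ⟨⟨h5, by omega⟩, h1, h2⟩
    · rintro ⟨⟨h1, h2⟩, h3, h4⟩
      have hx1 : x.1 ≤ n := by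
        rw [← h1]; exact Nat.le_mul_of_pos_right _ h4.pos
      have hx2 : x.2 ≤ n := by
        rw [← h1]; exact Nat.le_mul_of_pos_left _ h3.pos
      exact ⟨⟨⟨by omega, by omega⟩, h3, h4, by omega, by omega⟩, h1⟩
  · intro x hx
    simp only [mem_filter, mem_product, mem_range] at hx
    rw [mem_Ioc]
    exact ⟨hx.2.2.2.1, hx.2.2.2.2⟩

lemma card_bad (z X Y : ℕ) (hz : 1 ≤ z) :
    (((Ioc X (X + Y)).filter (IsBad z)).card : ℝ) ≤ 2 * Y / z + √((X + Y : ℕ) : ℝ) := by
  have hsub : (Ioc X (X + Y)).filter (IsBad z) ⊆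
      (Icc z (Nat.sqrt (X + Y))).biUnion
        (fun m => (Ioc X (X + Y)).filter (fun n => Rough 0 n ∧ m * m ∣ n)) := by
    intro n hn
    rw [mem_filter, mem_Ioc] at hn
    obtain ⟨hn1, m, hm, hmn⟩ := hn
    rw [mem_biUnion]
    refine ⟨m, ?_, ?_⟩
    · rw [mem_Icc]
      refine ⟨hm, ?_⟩
      rw [Nat.le_sqrt]
      exact (Nat.le_of_dvd (by omega) hmn).trans hn1.2
    · rw [mem_filter, mem_Ioc]
      exact ⟨hn1, fun p _ h => absurd h (by omega), hmn⟩
  have h1 := (card_le_card hsub).trans card_biUnion_le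
  have h2 : (((Ioc X (X + Y)).filter (IsBad z)).card : ℝ) ≤
      ∑ m ∈ Icc z (Nat.sqrt (X + Y)), NN 0 X Y (m * m) := by
    unfold NN
    exact_mod_cast h1
  refine h2.trans ?_
  have h3 : ∀ m ∈ Icc z (Nat.sqrt (X + Y)), NN 0 X Y (m * m) ≤ Y * ((m:ℝ) ^ 2)⁻¹ + 1 := by
    intro m hm
    rw [mem_Icc] at hm
    have hmm : 1 ≤ m * m := Nat.mul_pos (by omega) (by omega)
    rw [NN_eq 0 X Y (m * m) hmm (fun p _ h => absurd h (by omega))]
    have c1 : (((Ioc (X / (m * m)) ((X + Y) / (m * m))).filter (Rough 0)).card : ℝ) ≤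
        (((X + Y) / (m * m) - X / (m * m) : ℕ) : ℝ) := by
      have := card_filter_le (Ioc (X / (m * m)) ((X + Y) / (m * m))) (Rough 0)
      rw [Nat.card_Ioc] at this
      exact_mod_cast this
    refine c1.trans ?_
    have hd0 : (0:ℝ) < ((m * m : ℕ) : ℝ) := by exact_mod_cast hmm
    have f1 : (((X + Y) / (m * m) : ℕ) : ℝ) ≤ ((X + Y : ℕ) : ℝ) / ((m * m : ℕ) : ℝ) :=
      Nat.cast_div_le
    have f4 : (X : ℝ) / ((m * m : ℕ) : ℝ) - 1 ≤ ((X / (m * m) : ℕ) : ℝ) := by
      rw [sub_le_iff_le_add, div_le_iff₀ hd0]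
      have := Nat.lt_div_mul_add (a := X) (b := m * m) (by omega)
      have h : X ≤ (X / (m * m) + 1) * (m * m) := by nlinarith
      exact_mod_cast h
    have hle : X / (m * m) ≤ (X + Y) / (m * m) := Nat.div_le_div_right (by omega)
    rw [Nat.cast_sub hle]
    have f6 : ((X + Y : ℕ) : ℝ) / ((m * m : ℕ) : ℝ) =
        (X:ℝ) / ((m * m : ℕ) : ℝ) + Y * ((m:ℝ) ^ 2)⁻¹ := by
      push_cast
      rw [← pow_two]; ring
    linarith
  refine (sum_le_sum h3).trans ?_
  rw [sum_add_distrib, ← mul_sum]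
  have h4 : ∑ m ∈ Icc z (Nat.sqrt (X + Y)), ((m:ℝ) ^ 2)⁻¹ ≤ 2 / z := by
    have := sum_Ioo_inv_sq_le (α := ℝ) (z - 1) (Nat.sqrt (X + Y) + 1)
    have e : Ioo (z - 1) (Nat.sqrt (X + Y) + 1) = Icc z (Nat.sqrt (X + Y)) := by
      ext x; simp only [mem_Ioo, mem_Icc]; omega
    rw [e] at this
    have e2 : (((z - 1 : ℕ) : ℝ)) + 1 = z := by
      rw [Nat.cast_sub hz]; push_cast; ring
    rw [e2] at this
    exact this
  have h5 : ∑ m ∈ Icc z (Nat.sqrt (X + Y)), (1:ℝ) ≤ √((X + Y : ℕ) : ℝ) := by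
    rw [sum_const, nsmul_eq_mul, mul_one, Nat.card_Icc]
    have : Nat.sqrt (X + Y) + 1 - z ≤ Nat.sqrt (X + Y) := by omega
    have h6 : ((Nat.sqrt (X + Y) + 1 - z : ℕ) : ℝ) ≤ (Nat.sqrt (X + Y) : ℝ) := by exact_mod_cast this
    exact h6.trans Real.nat_sqrt_le_real_sqrt
  have h7 : (Y:ℝ) * ∑ m ∈ Icc z (Nat.sqrt (X + Y)), ((m:ℝ) ^ 2)⁻¹ ≤ Y * (2 / z) :=
    mul_le_mul_of_nonneg_left h4 (by positivity)
  have e : (Y:ℝ) * (2 / z) = 2 * Y / z := by ring
  linarith

lemma upper (L : ℝ) (z X Y : ℕ) (hz : 1 ≤ z) (hX : 1 ≤ X)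
    (hL : L = Real.log ((X + Y : ℕ) : ℝ)) :
    SS L z X Y ≤ (2 * L - Real.log X) * ∑ p ∈ (Ioc X (X + Y)).filter Nat.Prime, Real.log p +
      PS X Y + 3 * L ^ 2 * (2 * Y / z + √((X + Y : ℕ) : ℝ)) := by
  unfold SS
  have hlog : ∀ n ∈ Ioc X (X + Y), Real.log X ≤ Real.log n ∧ Real.log n ≤ L := by
    intro n hn
    rw [mem_Ioc] at hn
    constructor
    · apply Real.log_le_log
      · exact_mod_cast hX
      · exact_mod_cast hn.1.le
    · rw [hL]
      apply Real.log_le_log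
      · exact_mod_cast (by omega : 0 < n)
      · exact_mod_cast hn.2
  have key : ∀ n ∈ (Ioc X (X + Y)).filter (Rough z), lam L n ≤
      ((if n.Prime then (2 * L - Real.log X) * Real.log n else 0) +
      ∑ x ∈ n.divisorsAntidiagonal.filter (fun x => x.1.Prime ∧ x.2.Prime),
        Real.log x.1 * Real.log x.2) + (if IsBad z n then 3 * L ^ 2 else 0) := by
    intro n hn
    rw [mem_filter] at hn
    have hn1 := hlog n hn.1
    have hn2 := mem_Ioc.1 hn.1
    have hX0 : 0 ≤ Real.log X := Real.log_natCast_nonneg X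
    have ha : 0 ≤ (if n.Prime then (2 * L - Real.log X) * Real.log n else 0) := by
      split_ifs
      · apply mul_nonneg <;> linarith
      · exact le_rfl
    have hb : 0 ≤ ∑ x ∈ n.divisorsAntidiagonal.filter (fun x => x.1.Prime ∧ x.2.Prime),
        Real.log x.1 * Real.log x.2 :=
      sum_nonneg fun x _ => mul_nonneg (Real.log_natCast_nonneg _) (Real.log_natCast_nonneg _)
    by_cases hbad : IsBad z n
    · rw [if_pos hbad]
      have := lam_le L n (by omega) hn1.2
      linarith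
    · rw [if_neg hbad, add_zero, lam_eq L n (by omega)]
      refine add_le_add ?_ ?_
      · rw [vM_eq z n n (by omega) hn.2 hbad dvd_rfl]
        split_ifs with hp
        · rw [mul_comm]
          apply mul_le_mul_of_nonneg_right _ (by linarith)
          linarith
        · simp
      · rw [sum_filter]
        refine sum_le_sum fun x hx => ?_
        rw [Nat.mem_divisorsAntidiagonal] at hx
        rw [vM_eq z n x.1 (by omega) hn.2 hbad (Dvd.intro _ hx.1),
          vM_eq z n x.2 (by omega) hn.2 hbad (Dvd.intro_left _ hx.1)]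
        by_cases h1 : x.1.Prime <;> by_cases h2 : x.2.Prime <;> simp [h1, h2]
  refine (sum_le_sum key).trans ?_
  rw [sum_add_distrib, sum_add_distrib]
  have t1 : ∑ n ∈ (Ioc X (X + Y)).filter (Rough z),
      (if n.Prime then (2 * L - Real.log X) * Real.log n else 0) ≤
      (2 * L - Real.log X) * ∑ p ∈ (Ioc X (X + Y)).filter Nat.Prime, Real.log p := by
    rw [← sum_filter, mul_sum]
    refine sum_le_sum_of_subset_of_nonneg ?_ ?_
    · intro p hp
      simp only [mem_filter] at hp ⊢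
      exact ⟨hp.1.1, hp.2⟩
    · intro p hp _
      rw [mem_filter] at hp
      have := hlog p hp.1
      have hX0 : 0 ≤ Real.log X := Real.log_natCast_nonneg X
      apply mul_nonneg <;> linarith
  have t2 : ∑ n ∈ (Ioc X (X + Y)).filter (Rough z),
      ∑ x ∈ n.divisorsAntidiagonal.filter (fun x => x.1.Prime ∧ x.2.Prime),
        Real.log x.1 * Real.log x.2 ≤ PS X Y := by
    rw [PS_eq]
    refine sum_le_sum_of_subset_of_nonneg (filter_subset _ _) ?_
    intro n _ _
    exact sum_nonneg fun x _ =>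
      mul_nonneg (Real.log_natCast_nonneg _) (Real.log_natCast_nonneg _)
  have t3 : ∑ n ∈ (Ioc X (X + Y)).filter (Rough z), (if IsBad z n then 3 * L ^ 2 else 0) ≤
      3 * L ^ 2 * (2 * Y / z + √((X + Y : ℕ) : ℝ)) := by
    have h := card_bad z X Y hz
    refine le_trans ?_ (mul_le_mul_of_nonneg_left h (by positivity))
    rw [← sum_filter, sum_const, nsmul_eq_mul, mul_comm]
    apply mul_le_mul_of_nonneg_left _ (by positivity)
    have : (((Ioc X (X + Y)).filter (Rough z)).filter (IsBad z)) ⊆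
        (Ioc X (X + Y)).filter (IsBad z) := filter_subset_filter _ (filter_subset _ _)
    exact_mod_cast card_le_card this
  linarith

end Pool.Agent.H295R3.D
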