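import Mathlib
import Pool.Agent.H33.G.R_seed8.H295R3.D5

set_option autoImplicit false

open Finset

namespace Pool.Agent.H295R3.D

open ArithmeticFunction (vonMangoldt vonMangoldt_nonneg vonMangoldt_le_log)

lemma rough_prime {z p : ℕ} (hp : p.Prime) (h : z ≤ p) : Rough z p := by
  intro q hq hqz hd
  have := (Nat.prime_dvd_prime_iff_eq hq hp).1 hd
  omega

lemma theta_le_two (x : ℝ) (hx : 0 ≤ x) : Chebyshev.theta x ≤ 2 * x := by
  have h := Chebyshev.theta_le_log4_mul_x hx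
  have h2 : Real.log 4 ≤ 2 := by
    have : (4:ℝ) = 2 ^ 2 := by norm_num
    rw [this, Real.log_pow]
    have := Real.log_two_lt_d9
    push_cast
    linarith
  nlinarith

lemma sum_Icc_log_ge (z : ℕ) (x : ℝ) (hz : 1 ≤ z) :
    Chebyshev.theta x - Chebyshev.theta z ≤
      ∑ p ∈ (Icc z ⌊x⌋₊).filter Nat.Prime, Real.log p := by
  unfold Chebyshev.theta
  rw [Nat.floor_natCast, sub_le_iff_le_add]
  have hsub : (Ioc 0 ⌊x⌋₊).filter Nat.Prime ⊆
      (Icc z ⌊x⌋₊).filter Nat.Prime ∪ (Ioc 0 z).filter Nat.Prime := by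
    intro p hp
    simp only [mem_filter, mem_Ioc, mem_union, mem_Icc] at hp ⊢
    rcases le_total z p with h | h
    · left; exact ⟨⟨h, hp.1.2⟩, hp.2⟩
    · right; exact ⟨⟨hp.1.1, h⟩, hp.2⟩
  refine (sum_le_sum_of_subset_of_nonneg hsub (fun i _ _ => Real.log_natCast_nonneg i)).trans ?_
  rw [← sum_union_inter]
  have : 0 ≤ ∑ p ∈ (Icc z ⌊x⌋₊).filter Nat.Prime ∩ (Ioc 0 z).filter Nat.Prime, Real.log p :=
    sum_nonneg fun i _ => Real.log_natCast_nonneg i
  linarith

lemma sum_Icc_log_le (z : ℕ) (x : ℝ) (hz : 1 ≤ z) :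
    ∑ p ∈ (Icc z ⌊x⌋₊).filter Nat.Prime, Real.log p ≤ Chebyshev.theta x := by
  unfold Chebyshev.theta
  refine sum_le_sum_of_subset_of_nonneg ?_ (fun i _ _ => Real.log_natCast_nonneg i)
  intro p hp
  simp only [mem_filter, mem_Ioc, mem_Icc] at hp ⊢
  exact ⟨⟨by omega, hp.1.2⟩, hp.2⟩

lemma pair_lower (z N : ℕ) (hz : 1 ≤ z) :
    ∑ p ∈ (Icc z (N / z)).filter Nat.Prime, Real.log p *
      ∑ q ∈ (Icc z (N / p)).filter Nat.Prime, Real.log q ≤
    ∑ n ∈ (Ioc 0 N).filter (Rough z), ∑ x ∈ n.divisorsAntidiagonal.filter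
      (fun x => (x.1.Prime ∧ x.2.Prime) ∧ z ≤ x.1 ∧ z ≤ x.2), Real.log x.1 * Real.log x.2 := by
  have e : ∑ n ∈ (Ioc 0 N).filter (Rough z), ∑ x ∈ n.divisorsAntidiagonal.filter
      (fun x => (x.1.Prime ∧ x.2.Prime) ∧ z ≤ x.1 ∧ z ≤ x.2), Real.log x.1 * Real.log x.2 =
      ∑ x ∈ (Icc z N ×ˢ Icc z N).filter (fun x => (x.1.Prime ∧ x.2.Prime) ∧ x.1 * x.2 ≤ N),
        Real.log x.1 * Real.log x.2 := by
    rw [← Finset.sum_fiberwise_of_maps_to
      (s := (Icc z N ×ˢ Icc z N).filter (fun x => (x.1.Prime ∧ x.2.Prime) ∧ x.1 * x.2 ≤ N))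
      (t := (Ioc 0 N).filter (Rough z)) (g := fun x => x.1 * x.2)]
    · refine sum_congr rfl fun n hn => ?_
      rw [mem_filter, mem_Ioc] at hn
      refine sum_congr ?_ fun _ _ => rfl
      ext x
      simp only [mem_filter, mem_product, mem_Icc, Nat.mem_divisorsAntidiagonal]
      constructor
      · rintro ⟨⟨h1, h2⟩, ⟨h3, h4⟩, h5, h6⟩
        have hx1 : x.1 ≤ n := by
          rw [← h1]; exact Nat.le_mul_of_pos_right _ h4.pos
        have hx2 : x.2 ≤ n := by
          rw [← h1]; exact Nat.le_mul_of_pos_left _ h3.pos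
        exact ⟨⟨⟨⟨h5, by omega⟩, ⟨h6, by omega⟩⟩, ⟨h3, h4⟩, by omega⟩, h1⟩
      · rintro ⟨⟨⟨⟨h5, _⟩, ⟨h6, _⟩⟩, ⟨h3, h4⟩, h7⟩, h1⟩
        exact ⟨⟨h1, by omega⟩, ⟨h3, h4⟩, h5, h6⟩
    · intro x hx
      simp only [mem_filter, mem_product, mem_Icc] at hx
      obtain ⟨⟨⟨h5, _⟩, ⟨h6, _⟩⟩, ⟨h3, h4⟩, h7⟩ := hx
      rw [mem_filter, mem_Ioc]
      exact ⟨⟨Nat.mul_pos h3.pos h4.pos, h7⟩, rough_mul (rough_prime h3 h5) (rough_prime h4 h6)⟩
  rw [e]
  conv_rhs => rw [sum_filter, sum_product]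
  have hsub : (Icc z (N / z)).filter Nat.Prime ⊆ Icc z N := by
    intro p hp
    simp only [mem_filter, mem_Icc] at hp ⊢
    exact ⟨hp.1.1, hp.1.2.trans (Nat.div_le_self _ _)⟩
  have hnn : ∀ a b : ℕ, 0 ≤ (if (a.Prime ∧ b.Prime) ∧ a * b ≤ N then
      Real.log a * Real.log b else 0) := by
    intro a b
    split_ifs
    · exact mul_nonneg (Real.log_natCast_nonneg _) (Real.log_natCast_nonneg _)
    · exact le_rfl
  refine le_trans ?_ (sum_le_sum_of_subset_of_nonneg hsub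
    (fun a _ _ => sum_nonneg fun b _ => hnn a b))
  refine sum_le_sum fun p hp => ?_
  rw [mem_filter, mem_Icc] at hp
  have hp0 : 0 < p := hp.2.pos
  have hsub2 : (Icc z (N / p)).filter Nat.Prime ⊆ Icc z N := by
    intro q hq
    simp only [mem_filter, mem_Icc] at hq ⊢
    exact ⟨hq.1.1, hq.1.2.trans (Nat.div_le_self _ _)⟩
  refine le_trans ?_ (sum_le_sum_of_subset_of_nonneg hsub2 (fun b _ _ => hnn p b))
  rw [mul_sum]
  refine sum_le_sum fun q hq => ?_
  rw [mem_filter, mem_Icc] at hq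
  have : p * q ≤ N := by
    have := (Nat.le_div_iff_mul_le hp0).1 hq.1.2
    rw [mul_comm]; exact this
  rw [if_pos ⟨⟨hp.2, hq.2⟩, this⟩]

lemma lower (ε₁ C L : ℝ) (z N : ℕ) (hz : 2 ≤ z) (hN : z * z ≤ N) (hε0 : 0 ≤ ε₁) (hε : ε₁ ≤ 1)
    (hM : ∀ N : ℕ, 1 ≤ N →
      |∑ p ∈ (Finset.Icc 1 N).filter Nat.Prime, Real.log p / p - Real.log N| ≤ C)
    (hθ : ∀ x : ℝ, (z : ℝ) ≤ x → (1 - ε₁) * x ≤ Chebyshev.theta x)
    (hL : L = Real.log N) :
    2 * (1 - ε₁) * N * L - 2 * z * L - N * (2 * Real.log z + 2 * C + 5) ≤ SS L z 0 N := by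
  have hC0 : 0 ≤ C := (abs_nonneg _).trans (hM 1 le_rfl)
  have hzN : z ≤ N := by nlinarith
  have hz0 : (0:ℝ) < z := by exact_mod_cast (by omega : 0 < z)
  have hN0 : (0:ℝ) < N := by exact_mod_cast (by omega : 0 < N)
  have hL0 : 0 ≤ L := by rw [hL]; exact Real.log_natCast_nonneg N
  have hlz : 0 ≤ Real.log z := Real.log_natCast_nonneg z
  -- step 1
  have s1 : ∀ n ∈ (Ioc 0 N).filter (Rough z), (if n.Prime ∧ z ≤ n then L * Real.log n else 0) +
      ∑ x ∈ n.divisorsAntidiagonal.filter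
      (fun x => (x.1.Prime ∧ x.2.Prime) ∧ z ≤ x.1 ∧ z ≤ x.2), Real.log x.1 * Real.log x.2 ≤
      lam L n := by
    intro n hn
    rw [mem_filter, mem_Ioc] at hn
    by_cases h1 : n = 1
    · subst h1
      rw [lam_one]
      rw [if_neg (by intro h; exact Nat.not_prime_one h.1)]
      rw [sum_eq_zero]
      · simp; positivity
      · intro x hx
        simp only [mem_filter, Nat.mem_divisorsAntidiagonal] at hx
        have : x.1 = 1 := Nat.eq_one_of_mul_eq_one_right hx.1.1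
        rw [this]; simp
    · rw [lam_eq L n h1]
      have hln : Real.log n ≤ L := by
        rw [hL]
        apply Real.log_le_log
        · exact_mod_cast hn.1.1
        · exact_mod_cast hn.1.2
      refine add_le_add ?_ ?_
      · split_ifs with h
        · rw [ArithmeticFunction.vonMangoldt_apply_prime h.1, mul_comm]
          apply mul_le_mul_of_nonneg_left (by linarith) (Real.log_natCast_nonneg _)
        · apply mul_nonneg vonMangoldt_nonneg
          linarith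
      · have : ∀ x ∈ n.divisorsAntidiagonal.filter
          (fun x => (x.1.Prime ∧ x.2.Prime) ∧ z ≤ x.1 ∧ z ≤ x.2),
          Real.log x.1 * Real.log x.2 = vonMangoldt x.1 * vonMangoldt x.2 := by
          intro x hx
          rw [mem_filter] at hx
          rw [ArithmeticFunction.vonMangoldt_apply_prime hx.2.1.1,
            ArithmeticFunction.vonMangoldt_apply_prime hx.2.1.2]
        rw [sum_congr rfl this]
        exact sum_le_sum_of_subset_of_nonneg (filter_subset _ _)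
          (fun x _ _ => mul_nonneg vonMangoldt_nonneg vonMangoldt_nonneg)
  have s2 : SS L z 0 N = ∑ n ∈ (Ioc 0 N).filter (Rough z), lam L n := by
    unfold SS; rw [zero_add]
  rw [s2]
  refine le_trans ?_ (sum_le_sum s1)
  rw [sum_add_distrib]
  -- first sum
  have t1 : L * ((1 - ε₁) * N - 2 * z) ≤ ∑ n ∈ (Ioc 0 N).filter (Rough z),
      (if n.Prime ∧ z ≤ n then L * Real.log n else 0) := by
    rw [← sum_filter]
    have hsub : (Icc z N).filter Nat.Prime ⊆
        ((Ioc 0 N).filter (Rough z)).filter (fun n => n.Prime ∧ z ≤ n) := by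
      intro p hp
      simp only [mem_filter, mem_Icc, mem_Ioc] at hp ⊢
      exact ⟨⟨⟨hp.2.pos, hp.1.2⟩, rough_prime hp.2 hp.1.1⟩, hp.2, hp.1.1⟩
    refine le_trans ?_ (sum_le_sum_of_subset_of_nonneg hsub
      (fun i _ _ => mul_nonneg hL0 (Real.log_natCast_nonneg i)))
    rw [← mul_sum]
    apply mul_le_mul_of_nonneg_left _ hL0
    have h1 := sum_Icc_log_ge z (N:ℝ) (by omega)
    rw [Nat.floor_natCast] at h1
    have h2 := hθ N (by exact_mod_cast hzN)
    have h3 := theta_le_two (z:ℝ) hz0.le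
    linarith
  have t2 := pair_lower z N (by omega)
  have hNz1 : z ≤ N / z := by rw [Nat.le_div_iff_mul_le (by omega)]; exact hN
  have t3 : ∑ p ∈ (Icc z (N / z)).filter Nat.Prime, Real.log p * ((1 - ε₁) * (N / p) - 2 * z) ≤
      ∑ p ∈ (Icc z (N / z)).filter Nat.Prime, Real.log p *
      ∑ q ∈ (Icc z (N / p)).filter Nat.Prime, Real.log q := by
    refine sum_le_sum fun p hp => ?_
    rw [mem_filter, mem_Icc] at hp
    apply mul_le_mul_of_nonneg_left _ (Real.log_natCast_nonneg _)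
    have hp0 : (0:ℝ) < p := by exact_mod_cast hp.2.pos
    have h1 := sum_Icc_log_ge z ((N:ℝ) / p) (by omega)
    rw [Nat.floor_div_eq_div] at h1
    have hzp : z * p ≤ N := by
      have := (Nat.le_div_iff_mul_le (by omega)).1 hp.1.2
      rw [mul_comm]; exact this
    have h2 := hθ ((N:ℝ) / p) (by
      rw [le_div_iff₀ hp0]; exact_mod_cast hzp)
    have h3 := theta_le_two (z:ℝ) hz0.le
    linarith
  have hP1 : 1 ≤ N / z := by omega
  have hNz : (0:ℝ) < ((N / z : ℕ) : ℝ) := by exact_mod_cast hP1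
  have t4 : ∑ p ∈ (Icc z (N / z)).filter Nat.Prime, Real.log p ≤ 2 * (N / z) := by
    have h1 := sum_Icc_log_le z ((N:ℝ) / z) (by omega)
    rw [Nat.floor_div_eq_div] at h1
    exact h1.trans (theta_le_two _ (by positivity))
  have t5 : Real.log N - 2 * Real.log z - 1 - 2 * C ≤
      ∑ p ∈ (Icc z (N / z)).filter Nat.Prime, Real.log p / p := by
    have m1 := (abs_le.1 (hM (N / z) hP1)).1
    have m2 := (abs_le.1 (hM z (by omega))).2
    have hsub : (Icc 1 (N / z)).filter Nat.Prime ⊆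
        (Icc z (N / z)).filter Nat.Prime ∪ (Icc 1 z).filter Nat.Prime := by
      intro p hp
      simp only [mem_filter, mem_union, mem_Icc] at hp ⊢
      rcases le_total z p with h | h
      · left; exact ⟨⟨h, hp.1.2⟩, hp.2⟩
      · right; exact ⟨⟨hp.1.1, h⟩, hp.2⟩
    have nn : ∀ i : ℕ, 0 ≤ Real.log i / i := fun i =>
      div_nonneg (Real.log_natCast_nonneg i) (by positivity)
    have h1 := sum_le_sum_of_subset_of_nonneg hsub (fun i _ _ => nn i)
    have h2 := sum_union_inter (s₁ := (Icc z (N / z)).filter Nat.Prime)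
      (s₂ := (Icc 1 z).filter Nat.Prime) (f := fun i : ℕ => Real.log i / i)
    have h3 : 0 ≤ ∑ p ∈ (Icc z (N / z)).filter Nat.Prime ∩ (Icc 1 z).filter Nat.Prime,
      Real.log p / p := sum_nonneg fun i _ => nn i
    have h4 : Real.log N - Real.log z - 1 ≤ Real.log ((N / z : ℕ) : ℝ) := by
      have hle : (N:ℝ) ≤ 2 * (z * ((N / z : ℕ) : ℝ)) := by
        have := Nat.lt_div_mul_add (a := N) (b := z) (by omega)
        have h : N ≤ 2 * (z * (N / z)) := by nlinarith
        exact_mod_cast h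
      have := Real.log_le_log hN0 hle
      rw [Real.log_mul (by norm_num) (by positivity), Real.log_mul hz0.ne' hNz.ne'] at this
      have h2 := Real.log_two_lt_d9
      linarith
    linarith
  have t6 : ∑ p ∈ (Icc z (N / z)).filter Nat.Prime, Real.log p * ((1 - ε₁) * (N / p) - 2 * z) =
      (1 - ε₁) * N * ∑ p ∈ (Icc z (N / z)).filter Nat.Prime, Real.log p / p -
      2 * z * ∑ p ∈ (Icc z (N / z)).filter Nat.Prime, Real.log p := by
    rw [mul_sum, mul_sum, ← sum_sub_distrib]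
    refine sum_congr rfl fun p _ => ?_
    ring
  have t7 : (1 - ε₁) * N * (L - 2 * Real.log z - 1 - 2 * C) ≤
      (1 - ε₁) * N * ∑ p ∈ (Icc z (N / z)).filter Nat.Prime, Real.log p / p := by
    apply mul_le_mul_of_nonneg_left _ (mul_nonneg (by linarith) hN0.le)
    rw [hL]; exact t5
  have t8 : 2 * z * ∑ p ∈ (Icc z (N / z)).filter Nat.Prime, Real.log p ≤ 4 * N := by
    have := mul_le_mul_of_nonneg_left t4 (by positivity : (0:ℝ) ≤ 2 * z)
    refine this.trans (le_of_eq ?_)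
    field_simp
    ring
  have t9 : (1 - ε₁) * N * (2 * Real.log z + 1 + 2 * C) ≤ N * (2 * Real.log z + 1 + 2 * C) := by
    apply mul_le_mul_of_nonneg_right _ (by positivity)
    nlinarith
  nlinarith [t1, t2, t3, t6, t7, t8, t9]

end Pool.Agent.H295R3.D
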